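import Pool.Agent.H489Z.BorH.CHSide
import Pool.Agent.H489Z.BorH.NegSide
import Pool.Agent.H489Z.BorH.Force

/-!
# A Borel non-sigma-compact group generated by a Hurewicz set: independence of ZFC
-/

set_option autoImplicit false

namespace Pool.Agent.Results.MP_88659e_gt.AIndependent

open Pool.Agent.Helper292.ForceCH Pool.Agent.H489Z.BorH

/-- A forcing notion forces CH, and CH implies the positive answer; a forcing notion forces
`Cov T` and `Refl T` for an infinite `T`, and these imply the negative answer. -/
theorem result :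
    ((∃ (P : Type) (_ : Preorder P), Nonempty P ∧
        ∀ p : P, p ∈ OmegaOnePreserved P ∧ p ∈ CHHolds P) ∧
      (Cardinal.continuum.{0} = Cardinal.aleph 1 → Question)) ∧
    ((∃ (P : Type) (_ : Preorder P) (T : Type), Nonempty P ∧ Infinite T ∧
        ∀ p : P, p ∈ CovHolds P T ∧ p ∈ ReflHolds P T) ∧
      ∀ T : Type, Infinite T → Cov T → Refl T → ¬ Question) := by
  refine ⟨⟨?_, question_of_CH⟩, exists_forcing_refl, fun T _ h1 h2 => not_question h1 h2⟩
  obtain ⟨P, _, h, h'⟩ := exists_forcing
  exact ⟨P, inferInstance, h, fun p => ⟨(h' p).1, (h' p).2.2⟩⟩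

end Pool.Agent.Results.MP_88659e_gt.AIndependent
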